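import Mathlib
import Pool.Agent.H87.InjTDef
import Pool.Agent.H87.InjT2

namespace Pool.Agent.Results.MP_ba88e9_an.Neg

open Pool.Agent.H87.InjT Ordinal

/-- For every countable ordinal `α` there is a Banach space `X` containing neither `c₀` nor
`C(ω^ω^α)` whose injective tensor square contains a complemented copy of `C(ω^ω^α)`. -/
theorem result (α : Ordinal.{0}) (hα : α < omega 1) :
    ∃ (X : Type 1) (_ : NormedAddCommGroup X) (_ : NormedSpace ℝ X) (_ : CompleteSpace X),
      EmbedsCompl C(Set.Icc (0 : Ordinal.{0}) (omega0 ^ omega0 ^ α), ℝ) (InjTensor X X) ∧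
      ¬ Embeds (ZeroAtInftyContinuousMap ℕ ℝ) X ∧
      ¬ Embeds C(Set.Icc (0 : Ordinal.{0}) (omega0 ^ omega0 ^ α), ℝ) X := by
  set ξ : Ordinal.{0} := omega0 ^ omega0 ^ α with hξ
  have h1 : ξ < omega 1 := isPrincipal_opow_omega 1 omega0_lt_omega_one
    (isPrincipal_opow_omega 1 omega0_lt_omega_one hα)
  have h2 : omega0 ≤ ξ := by
    have := opow_le_opow_right omega0_pos
      (Order.one_le_iff_pos.2 (opow_pos α omega0_pos))
    rwa [opow_one] at this
  have h3 : (Set.Iio ξ).Countable := by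
    rw [← Cardinal.le_aleph0_iff_set_countable, Cardinal.mk_Iio_ordinal, Cardinal.lift_le_aleph0,
      ← Cardinal.lt_aleph_one_iff, ← Cardinal.lt_ord, Cardinal.ord_aleph]
    exact h1
  have : Countable (Set.Icc (0 : Ordinal.{0}) ξ) :=
    ((h3.insert ξ).mono fun x hx => (eq_or_lt_of_le hx.2)).to_subtype
  have hK : ∀ t : Set.Icc (0 : Ordinal.{0}) ξ, IsClopen (Set.Iic t) := fun t => by
    have : IsClopen (Set.Iic t.1) := ⟨isClosed_Iic, by
      rw [← Order.Iio_succ]; exact isOpen_Iio⟩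
    exact this.preimage continuous_subtype_val
  obtain ⟨T⟩ := exists_tr (Set.Icc (0 : Ordinal.{0}) ξ) ⟨ξ, by simp⟩ fun t => t.2.2
  refine ⟨T.X, inferInstance, inferInstance, inferInstance, T.compl' hK, T.noC0_X.not_c0,
    T.noC0_X.not_CK hK (fun n => ⟨n, by simp, ((natCast_lt_omega0 n).trans_le h2).le⟩) ?_⟩
  intro m n h
  exact Nat.cast_lt (α := Ordinal.{0}).2 h

end Pool.Agent.Results.MP_ba88e9_an.Neg
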